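import Pool.Agent.H95.GY.Targets

/-!
Module CH of the board gy_modules (MP_c39b0e_gt): the chart of the one-parameter groups.
-/

set_option autoImplicit false

open Filter Topology Set

universe u

namespace Pool.Agent.H48.GY.CH

open Pool.Agent.H95.GY

/-- the data of module LS -/
structure LD {Q : Type u} [Group Q] [TopologicalSpace Q] (φ : Q → ℝ) (n : ℕ)
    (e : (Fin n → ℝ) → ℝ → Q) (d : (Fin n → ℝ) → Q → ℝ) (a : ℝ) : Prop where
  has : ∀ v, HasD φ (e v) (d v)
  ex : ∀ X D, HasD φ X D → ∃ v, e v = X ∧ d v = D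
  add : ∀ v w x, d (v + w) x = d v x + d w x
  smul : ∀ (c : ℝ) v x, d (c • v) x = c * d v x
  pos : 0 < a
  up : ∀ v x, |d v x| ≤ a * ‖v‖
  low : ∀ (v : Fin n → ℝ) (M : ℝ), (∀ x, |d v x| ≤ M) → ‖v‖ ≤ a * M

section

variable {Q : Type u} [Group Q] [TopologicalSpace Q]

/-- the derivative is unique -/
theorem hasD_unique {φ : Q → ℝ} {X : ℝ → Q} {D D' : Q → ℝ} (h : HasD φ X D) (h' : HasD φ X D') :
    D = D' := by
  obtain ⟨-, c, hc, t0, ht0, h1⟩ := h
  obtain ⟨-, c', hc', t0', ht0', h2⟩ := h'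
  funext x
  by_contra hne
  have hpos : 0 < |D x - D' x| := abs_pos.2 (sub_ne_zero.2 hne)
  obtain ⟨t, ht⟩ : ∃ t : ℝ, t = min (min t0 t0') (|D x - D' x| / (2 * (c + c'))) := ⟨_, rfl⟩
  have htp : 0 < t := by
    rw [ht]
    positivity
  have ht1 : t ≤ t0 := by rw [ht]; exact (min_le_left _ _).trans (min_le_left _ _)
  have ht2 : t ≤ t0' := by rw [ht]; exact (min_le_left _ _).trans (min_le_right _ _)
  have ht3 : t ≤ |D x - D' x| / (2 * (c + c')) := by rw [ht]; exact min_le_right _ _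
  have e1 := h1 t x (by rw [abs_of_pos htp]; exact ht1)
  have e2 := h2 t x (by rw [abs_of_pos htp]; exact ht2)
  have e3 : |t * D x - t * D' x| ≤ (c + c') * t ^ 2 := by
    have : t * D x - t * D' x = (φ (X t * x) - φ x - t * D' x) - (φ (X t * x) - φ x - t * D x) := by
      ring
    rw [this]
    refine (abs_sub _ _).trans ?_
    linarith
  have e4 : |t * D x - t * D' x| = t * |D x - D' x| := by
    rw [← mul_sub, abs_mul, abs_of_pos htp]
  rw [e4] at e3
  have e5 : |D x - D' x| ≤ (c + c') * t := by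
    have : t * |D x - D' x| ≤ t * ((c + c') * t) := by
      calc t * |D x - D' x| ≤ (c + c') * t ^ 2 := e3
        _ = t * ((c + c') * t) := by ring
    exact le_of_mul_le_mul_left this htp
  have e6 : (c + c') * t ≤ |D x - D' x| / 2 := by
    rw [le_div_iff₀ (by positivity)] at ht3
    linarith
  linarith

/-- scaling of the derivative -/
theorem hasD_scale {φ : Q → ℝ} {X : ℝ → Q} {D : Q → ℝ} (h : HasD φ X D) (k : ℝ) :
    HasD φ (fun t => X (k * t)) (fun x => k * D x) := by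
  obtain ⟨hX, c, hc, t0, ht0, h1⟩ := h
  refine ⟨hX.scale k, c * k ^ 2 + 1, by positivity, t0 / (|k| + 1), by positivity, ?_⟩
  intro t x ht
  have hkt : |k * t| ≤ t0 := by
    rw [abs_mul]
    rw [le_div_iff₀ (by positivity)] at ht
    have : |k| * |t| ≤ |t| * (|k| + 1) := by
      nlinarith [abs_nonneg t]
    linarith
  have e1 := h1 (k * t) x hkt
  have e2 : φ (X (k * t) * x) - φ x - t * (k * D x) = φ (X (k * t) * x) - φ x - k * t * D x := by
    ring
  show |φ (X (k * t) * x) - φ x - t * (k * D x)| ≤ (c * k ^ 2 + 1) * t ^ 2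
  rw [e2]
  refine e1.trans ?_
  nlinarith [sq_nonneg t]

variable {ν φ : Q → ℝ} {r C : ℝ} {n : ℕ} {e : (Fin n → ℝ) → ℝ → Q} {d : (Fin n → ℝ) → Q → ℝ}
  {a : ℝ}

theorem LD.sub (h : LD φ n e d a) (v w : Fin n → ℝ) (x : Q) : d (v - w) x = d v x - d w x := by
  have e1 : v - w = v + (-1 : ℝ) • w := by
    rw [neg_one_smul, sub_eq_add_neg]
  rw [e1, h.add, h.smul]
  ring

theorem LD.inj (h : LD φ n e d a) : Function.Injective e := by
  intro v w hvw
  have h1 : HasD φ (e v) (d v) := h.has v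
  have h2 : HasD φ (e v) (d w) := by
    rw [hvw]
    exact h.has w
  have h3 := hasD_unique h1 h2
  have h4 : ∀ x, |d (v - w) x| ≤ 0 := by
    intro x
    rw [h.sub, h3]
    simp
  have h5 := h.low _ _ h4
  rw [mul_zero] at h5
  exact sub_eq_zero.1 (norm_le_zero_iff.1 h5)

theorem nu_pos [T2Space Q] (hg : PreG ν r C) {g : Q} (h : g ≠ 1) : 0 < ν g := by
  rcases (hg.nonneg g).lt_or_eq with h1 | h1
  · exact h1
  · exfalso
    apply h
    by_contra hne
    obtain ⟨ε, hε, h2⟩ := hg.small {g}ᶜ (isOpen_compl_singleton.mem_nhds (by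
      intro h3
      exact hne (Set.mem_singleton_iff.1 h3).symm))
    exact h2 g (by rw [← h1]; exact hε) rfl

variable [IsTopologicalGroup Q]

theorem nu_continuous (hg : PreG ν r C) : Continuous ν := by
  rw [continuous_iff_continuousAt]
  intro h
  rw [Metric.continuousAt_iff']
  intro ε hε
  have h1 : {g | ν g < ε} ∈ 𝓝 (h * h⁻¹) := by
    rw [mul_inv_cancel]
    exact hg.nhd ε hε
  have h2 : ContinuousAt (fun g : Q => g * h⁻¹) h := (continuous_mul_const h⁻¹).continuousAt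
  filter_upwards [h2 h1] with g hgm
  have hgm' : ν (g * h⁻¹) < ε := hgm
  rw [Real.dist_eq, abs_lt]
  have e1 : ν g ≤ ν (g * h⁻¹) + ν h := by
    have := hg.mul (g * h⁻¹) h
    rwa [inv_mul_cancel_right] at this
  have e2 : ν h ≤ ν (g * h⁻¹) + ν g := by
    have := hg.mul (h * g⁻¹) g
    rw [inv_mul_cancel_right] at this
    have e3 : ν (h * g⁻¹) = ν (g * h⁻¹) := by
      rw [← hg.inv (h * g⁻¹), mul_inv_rev, inv_inv]
    rwa [e3] at this
  constructor <;> linarith

end

/-- Module CH. -/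
theorem pf_CH (hLS : T_LS.{u}) (hHU : T_HU.{u}) (hHS : T_HS.{u}) (hHB : T_HB.{u})
    (hRHO : T_RHO.{u}) (hDD : T_DD.{u}) (hHL : T_HL.{u}) (hHP : T_HP.{u}) (hHW : T_HW.{u})
    (hHA : T_HA.{u}) : T_CH.{u} := by
  intro Q _ _ _ _ ν φ r C hg
  obtain ⟨n, e, d, hL1, hL2, hL3, hL4, a, ha, hL5, hL6⟩ := hLS Q ν φ r C hg
  have L : LD φ n e d a := ⟨hL1, hL2, hL3, hL4, ha, hL5, hL6⟩
  have hpre : PreG ν r C := hg.toPreG
  have hC : 0 < C := lt_of_lt_of_le one_pos hpre.C_pos
  have hr : 0 < r := hpre.r_pos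
  have hsmul : ∀ (c : ℝ) (v : Fin n → ℝ) (t : ℝ), e (c • v) t = e v (c * t) := by
    intro c v t
    have h1 := hasD_scale (L.has v) c
    have h2 : HasD φ (e (c • v)) (fun x => c * d v x) := by
      have := L.has (c • v)
      have e1 : d (c • v) = fun x => c * d v x := by
        funext x
        exact L.smul c v x
      rwa [e1] at this
    have h3 := hHU Q ν φ r C hg _ _ _ h2 h1
    exact congrFun h3 t
  have hE0 : e 0 1 = 1 := by
    have h1 := hsmul 0 0 1
    rw [zero_smul, zero_mul, (L.has 0).1.zero] at h1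
    exact h1
  -- the Lipschitz property
  obtain ⟨δ1, hδ1, C1, hC1, hHL'⟩ := hHL Q ν φ r C hg
  have hlip : ∀ v w : Fin n → ℝ, a * ‖v‖ ≤ δ1 → a * ‖w‖ ≤ δ1 →
      ν (e v 1 * (e w 1)⁻¹) ≤ C1 * (a * ‖v - w‖) := by
    intro v w hv hw
    refine hHL' (e v) (e w) (d v) (d w) (a * ‖v - w‖) (L.has v) (L.has w)
      (fun x => (L.up v x).trans hv) (fun x => (L.up w x).trans hw) (fun x => ?_)
    rw [← L.sub]
    exact L.up _ x
  have hcont0 : ∀ v : Fin n → ℝ, a * ‖v‖ < δ1 → ContinuousAt (fun v => e v 1) v := by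
    intro v hv
    have h1 : Tendsto (fun w : Fin n → ℝ => e w 1 * (e v 1)⁻¹) (𝓝 v) (𝓝 1) := by
      intro U hU
      obtain ⟨ε, hε, hεU⟩ := hpre.small U hU
      have h2 : ∀ᶠ w : Fin n → ℝ in 𝓝 v, a * ‖w‖ < δ1 := by
        have : Continuous fun w : Fin n → ℝ => a * ‖w‖ := by fun_prop
        exact this.continuousAt.eventually_lt continuousAt_const hv
      have h3 : ∀ᶠ w : Fin n → ℝ in 𝓝 v, C1 * (a * ‖w - v‖) < ε := by
        have h4 : Continuous fun w : Fin n → ℝ => C1 * (a * ‖w - v‖) := by fun_prop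
        refine h4.continuousAt.eventually_lt continuousAt_const ?_
        simpa using hε
      rw [Filter.mem_map]
      filter_upwards [h2, h3] with w hw1 hw2
      exact hεU _ (lt_of_le_of_lt (hlip w v hw1.le hv.le) hw2)
    have h5 : Tendsto (fun w : Fin n → ℝ => e w 1 * (e v 1)⁻¹ * e v 1) (𝓝 v) (𝓝 (1 * e v 1)) :=
      h1.mul tendsto_const_nhds
    rw [one_mul] at h5
    refine h5.congr fun w => ?_
    rw [inv_mul_cancel_right]
  have hcont : Continuous fun v => e v 1 := by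
    rw [continuous_iff_continuousAt]
    intro v
    obtain ⟨m, hm⟩ := exists_nat_gt (a * ‖v‖ / δ1)
    have hm0 : (0 : ℝ) < m + 1 := by positivity
    have h1 : a * ‖((1 : ℝ) / (m + 1)) • v‖ < δ1 := by
      rw [norm_smul, Real.norm_of_nonneg (by positivity)]
      rw [div_lt_iff₀ hδ1] at hm
      have : a * (1 / (m + 1) * ‖v‖) = a * ‖v‖ / (m + 1) := by ring
      rw [this, div_lt_iff₀ hm0]
      nlinarith
    have h2 : ContinuousAt (fun w : Fin n → ℝ => e (((1 : ℝ) / (m + 1)) • w) 1) v := by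
      have h3 := hcont0 _ h1
      have h4 : ContinuousAt (fun w : Fin n → ℝ => ((1 : ℝ) / (m + 1)) • w) v := by fun_prop
      exact ContinuousAt.comp (f := fun w : Fin n → ℝ => ((1 : ℝ) / (m + 1)) • w)
        (g := fun v => e v 1) h3 h4
    have h5 : (fun w : Fin n → ℝ => e w 1) =
        fun w => (e (((1 : ℝ) / (m + 1)) • w) 1) ^ (m + 1) := by
      funext w
      rw [hsmul]
      have := (L.has w).1.div (n := m + 1) (by omega) 1
      rw [← this]
      congr 2
      push_cast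
      ring
    rw [h5]
    exact h2.pow _
  -- constants
  obtain ⟨δ2, hδ2, C2, hC2, hHP'⟩ := hHP Q ν φ r C hg
  obtain ⟨δ3, hδ3, C3, hC3, hHW'⟩ := hHW Q ν φ r C hg
  have hP : ∀ v u : Fin n → ℝ, a * ‖v‖ ≤ δ2 → a * ‖u‖ ≤ δ2 →
      ν (e (v + u) 1 * (e v 1 * e u 1)⁻¹) ≤ C2 * (a * ‖v‖) * (a * ‖u‖) := by
    intro v u hv hu
    refine hHP' (e v) (e u) (e (v + u)) (d v) (d u) _ _ (L.has v) (L.has u) ?_ hv hu
      (fun x => L.up v x) (fun x => L.up u x)
    have := L.has (v + u)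
    have e1 : d (v + u) = fun x => d v x + d u x := by
      funext x
      exact L.add v u x
    rwa [e1] at this
  have hW : ∀ u : Fin n → ℝ, a * ‖u‖ ≤ δ3 → ‖u‖ ≤ a * (C3 * ν (e u 1)) := by
    intro u hu
    exact L.low _ _ (hHW' (e u) (d u) (L.has u) (fun x => (L.up u x).trans hu))
  have hB : ∀ v : Fin n → ℝ, ν (e v 1) ≤ C * (a * ‖v‖) := by
    intro v
    have := hHB Q ν φ r C hg (e v) (d v) (a * ‖v‖) (L.has v) (fun x => L.up v x) 1
    rwa [abs_one, mul_one] at this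
  refine ⟨n, e, fun v => (L.has v).1, ?_, L.inj, hsmul, ?_, hcont, ?_, ?_⟩
  · -- surj
    intro X hX
    obtain ⟨ρ, hρ, hρX⟩ := hRHO Q ν r C hpre X hX
    obtain ⟨C', hC', hD⟩ := hDD Q ν φ r C hg
    obtain ⟨D, -, hD2⟩ := hD X ρ hX hρ hρX
    obtain ⟨v, hv, -⟩ := L.ex X D ⟨hX, C' * ρ ^ 2 + 1, by positivity, r / (ρ + 1), by positivity,
      fun t x ht => by
        have h1 : ρ * |t| ≤ r := by
          rw [le_div_iff₀ (by positivity)] at ht
          nlinarith [abs_nonneg t]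
        refine (hD2 t x h1).trans ?_
        nlinarith [sq_nonneg t]⟩
    exact ⟨v, hv⟩
  · -- add
    intro v w t
    obtain ⟨Z, hZ, hZt⟩ := hHS Q ν φ r C hg (e v) (e w) (d v) (d w) (L.has v) (L.has w)
    have h1 : HasD φ (e (v + w)) (fun x => d v x + d w x) := by
      have := L.has (v + w)
      have e1 : d (v + w) = fun x => d v x + d w x := by
        funext x
        exact L.add v w x
      rwa [e1] at this
    have h2 := hHU Q ν φ r C hg _ _ _ hZ h1
    rw [← h2]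
    exact hZt t
  · -- loc
    obtain ⟨δ, hδ⟩ : ∃ δ : ℝ, δ = min (min (δ2 / (2 * a)) (δ3 / (2 * a)))
      (min (r / (C * a)) (1 / (2 * (a ^ 3 * C * C2 * C3)))) := ⟨_, rfl⟩
    have hδp : 0 < δ := by rw [hδ]; positivity
    have d2 : a * (2 * δ) ≤ δ2 := by
      have : δ ≤ δ2 / (2 * a) := by rw [hδ]; exact (min_le_left _ _).trans (min_le_left _ _)
      rw [le_div_iff₀ (by positivity)] at this
      linarith
    have d3 : a * (2 * δ) ≤ δ3 := by
      have : δ ≤ δ3 / (2 * a) := by rw [hδ]; exact (min_le_left _ _).trans (min_le_right _ _)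
      rw [le_div_iff₀ (by positivity)] at this
      linarith
    have dr : C * (a * δ) ≤ r := by
      have : δ ≤ r / (C * a) := by rw [hδ]; exact (min_le_right _ _).trans (min_le_left _ _)
      rw [le_div_iff₀ (by positivity)] at this
      linarith
    have dk : a ^ 3 * C * C2 * C3 * δ ≤ 1 / 2 := by
      have : δ ≤ 1 / (2 * (a ^ 3 * C * C2 * C3)) := by
        rw [hδ]; exact (min_le_right _ _).trans (min_le_right _ _)
      rw [le_div_iff₀ (by positivity)] at this
      linarith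
    refine ⟨δ, hδp, ?_⟩
    intro v hv w hw hvw
    have hvw' : e v 1 = e w 1 := hvw
    rw [mem_closedBall_zero_iff] at hv hw
    obtain ⟨u, hu⟩ : ∃ u : Fin n → ℝ, u = w - v := ⟨_, rfl⟩
    have hun : ‖u‖ ≤ 2 * δ := by
      rw [hu]
      refine (norm_sub_le _ _).trans ?_
      linarith
    have hwu : w = v + u := by rw [hu]; abel
    have h1 := hP v u (by nlinarith [norm_nonneg v]) (by nlinarith [norm_nonneg u])
    rw [← hwu, ← hvw'] at h1
    have h2 : e v 1 * (e v 1 * e u 1)⁻¹ = e v 1 * (e u 1)⁻¹ * (e v 1)⁻¹ := by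
      rw [mul_inv_rev, mul_assoc]
    rw [h2] at h1
    have h3 : ν ((e v 1)⁻¹) ≤ r := by
      rw [hpre.inv]
      refine (hB v).trans ?_
      refine le_trans ?_ dr
      gcongr
    have h4 := hpre.conj (e v 1 * (e u 1)⁻¹ * (e v 1)⁻¹) ((e v 1)⁻¹) h3
    have h5 : (e v 1)⁻¹ * (e v 1 * (e u 1)⁻¹ * (e v 1)⁻¹) * ((e v 1)⁻¹)⁻¹ = (e u 1)⁻¹ := by
      group
    rw [h5, hpre.inv] at h4
    have h6 : ν (e u 1) ≤ C * (C2 * (a * ‖v‖) * (a * ‖u‖)) :=
      h4.trans (mul_le_mul_of_nonneg_left h1 hC.le)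
    have h7 := hW u (by nlinarith [norm_nonneg u])
    have h8 : ‖u‖ ≤ a * (C3 * (C * (C2 * (a * ‖v‖) * (a * ‖u‖)))) := by
      refine h7.trans ?_
      gcongr
    have h9 : a * (C3 * (C * (C2 * (a * ‖v‖) * (a * ‖u‖)))) =
        a ^ 3 * C * C2 * C3 * ‖v‖ * ‖u‖ := by ring
    have h10 : a ^ 3 * C * C2 * C3 * ‖v‖ * ‖u‖ ≤ 1 / 2 * ‖u‖ := by
      refine mul_le_mul_of_nonneg_right ?_ (norm_nonneg u)
      refine le_trans ?_ dk
      gcongr
    have h11 : ‖u‖ ≤ 0 := by
      have := norm_nonneg u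
      linarith
    have h12 : u = 0 := norm_le_zero_iff.1 h11
    rw [hwu, h12, add_zero]
  · -- nhd
    intro ε0 hε0
    obtain ⟨C4, hC4, hA⟩ := hHA Q ν φ r C hg
    obtain ⟨s, hs, hA'⟩ := hA (1 / 4) (by norm_num)
    obtain ⟨ε, hε⟩ : ∃ ε : ℝ, ε = min ε0 (min (δ2 / a) (δ3 / a)) := ⟨_, rfl⟩
    have hεp : 0 < ε := by rw [hε]; positivity
    have hεε0 : ε ≤ ε0 := by rw [hε]; exact min_le_left _ _
    have e2 : a * ε ≤ δ2 := by
      have : ε ≤ δ2 / a := by rw [hε]; exact (min_le_right _ _).trans (min_le_left _ _)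
      rw [le_div_iff₀ ha] at this
      linarith
    have e3 : a * ε ≤ δ3 := by
      have : ε ≤ δ3 / a := by rw [hε]; exact (min_le_right _ _).trans (min_le_right _ _)
      rw [le_div_iff₀ ha] at this
      linarith
    obtain ⟨s', hs'⟩ : ∃ s' : ℝ, s' = min s (min (ε / (a * C4 + 2 * (a * C3)))
      (1 / (8 * (C2 * C3 * C4 * a ^ 4)))) := ⟨_, rfl⟩
    have hs'p : 0 < s' := by rw [hs']; positivity
    have s1 : s' ≤ s := by rw [hs']; exact min_le_left _ _
    have s2 : (a * C4 + 2 * (a * C3)) * s' ≤ ε := by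
      have : s' ≤ ε / (a * C4 + 2 * (a * C3)) := by
        rw [hs']; exact (min_le_right _ _).trans (min_le_left _ _)
      rw [le_div_iff₀ (by positivity)] at this
      linarith
    have s3 : C2 * C3 * C4 * a ^ 4 * s' ≤ 1 / 8 := by
      have : s' ≤ 1 / (8 * (C2 * C3 * C4 * a ^ 4)) := by
        rw [hs']; exact (min_le_right _ _).trans (min_le_right _ _)
      rw [le_div_iff₀ (by positivity)] at this
      linarith
    refine Filter.mem_of_superset (hpre.nhd s' hs'p) ?_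
    intro g hgs
    have hgs' : ν g < s' := hgs
    have hνc := nu_continuous hpre
    have hFc : Continuous fun v : Fin n → ℝ => ν (g * (e v 1)⁻¹) :=
      hνc.comp (continuous_const.mul hcont.inv)
    obtain ⟨v0, hv0, hmin⟩ := (isCompact_closedBall (0 : Fin n → ℝ) ε).exists_isMinOn
      ⟨0, Metric.mem_closedBall_self hεp.le⟩ hFc.continuousOn
    rw [mem_closedBall_zero_iff] at hv0
    obtain ⟨k, hk⟩ : ∃ k : Q, k = g * (e v0 1)⁻¹ := ⟨_, rfl⟩
    have hkg : ν k ≤ ν g := by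
      have h1 : ν (g * (e v0 1)⁻¹) ≤ ν (g * (e 0 1)⁻¹) :=
        hmin (Metric.mem_closedBall_self hεp.le)
      rw [hE0, inv_one, mul_one, ← hk] at h1
      exact h1
    have hEv0 : ν (e v0 1) ≤ 2 * ν g := by
      have h1 : e v0 1 = k⁻¹ * g := by
        rw [hk]
        group
      rw [h1]
      refine (hpre.mul _ _).trans ?_
      rw [hpre.inv]
      linarith
    have hv0n : ‖v0‖ ≤ 2 * (a * C3) * ν g := by
      refine (hW v0 (by nlinarith [norm_nonneg v0])).trans ?_
      calc a * (C3 * ν (e v0 1)) ≤ a * (C3 * (2 * ν g)) := by gcongr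
        _ = 2 * (a * C3) * ν g := by ring
    have hk1 : k = 1 := by
      by_contra hne
      have hkp := nu_pos hpre hne
      obtain ⟨X, D, hXD, hDk, hkX⟩ := hA' k (hkg.trans (hgs'.le.trans s1))
      obtain ⟨y, hy1, hy2⟩ := L.ex X D hXD
      rw [← hy1] at hkX
      have hyn : ‖y‖ ≤ a * (C4 * ν k) := L.low _ _ (fun x => by rw [hy2]; exact hDk x)
      have hyg : ‖y‖ ≤ a * C4 * ν g := by
        refine hyn.trans ?_
        rw [← mul_assoc]
        gcongr
      have hgn := hpre.nonneg g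
      have hsum : ‖y‖ + ‖v0‖ ≤ ε := by
        have : a * C4 * ν g + 2 * (a * C3) * ν g ≤ (a * C4 + 2 * (a * C3)) * s' := by
          rw [← add_mul]
          gcongr
        linarith
      have hmem : y + v0 ∈ Metric.closedBall (0 : Fin n → ℝ) ε := by
        rw [mem_closedBall_zero_iff]
        exact (norm_add_le _ _).trans hsum
      have h1 : ν (g * (e v0 1)⁻¹) ≤ ν (g * (e (y + v0) 1)⁻¹) := hmin hmem
      rw [← hk] at h1
      have h2 : g * (e (y + v0) 1)⁻¹ = (k * (e y 1)⁻¹) * (e (y + v0) 1 * (e y 1 * e v0 1)⁻¹)⁻¹ := by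
        rw [hk]
        group
      have h3 := hP y v0 (by nlinarith [norm_nonneg y, norm_nonneg v0])
        (by nlinarith [norm_nonneg y, norm_nonneg v0])
      have h4 : C2 * (a * ‖y‖) * (a * ‖v0‖) ≤ ν k / 4 := by
        calc C2 * (a * ‖y‖) * (a * ‖v0‖)
            ≤ C2 * (a * (a * (C4 * ν k))) * (a * (2 * (a * C3) * ν g)) := by gcongr
          _ = 2 * (C2 * C3 * C4 * a ^ 4 * ν g) * ν k := by ring
          _ ≤ 2 * (C2 * C3 * C4 * a ^ 4 * s') * ν k := by gcongr
          _ ≤ 2 * (1 / 8) * ν k := by gcongr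
          _ = ν k / 4 := by ring
      have h5 : ν (g * (e (y + v0) 1)⁻¹) ≤ ν k / 2 := by
        rw [h2]
        refine (hpre.mul _ _).trans ?_
        rw [hpre.inv (e (y + v0) 1 * (e y 1 * e v0 1)⁻¹)]
        linarith
      linarith
    refine ⟨v0, ?_, ?_⟩
    · rw [mem_closedBall_zero_iff]
      exact hv0.trans hεε0
    · show e v0 1 = g
      rw [hk] at hk1
      exact (mul_inv_eq_one.1 hk1).symm

end Pool.Agent.H48.GY.CH
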