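import Pool.Agent.H95.GY.Targets
import Pool.Agent.H58.Kuhn

/-!
Module LEB of the board gy_modules (MP_c39b0e_gt): the covering dimension of the cube.
-/

set_option autoImplicit false

open Filter Topology MeasureTheory Set

namespace Pool.Agent.H48.GY.LEB

open Pool.Agent.H95.GY

/-- the vertex of the cube -/
private noncomputable def vtx {D : ℕ} (s : Fin D → Bool) : Fin D → ℝ :=
  fun j => if s j = true then 1 else 0

private theorem span_ne_top {D : ℕ} (T : Finset (Fin D → Bool)) (hne : T.Nonempty)
    (hT : T.card ≤ D) : affineSpan ℝ (vtx '' (T : Set (Fin D → Bool))) ≠ ⊤ := by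
  classical
  intro h
  obtain ⟨n, hn⟩ : ∃ n, T.card = n + 1 := ⟨T.card - 1, by
    have := hne.card_pos
    omega⟩
  have h1 := finrank_vectorSpan_image_finset_le ℝ (vtx (D := D)) T hn
  have h2 : vectorSpan ℝ (vtx '' (T : Set (Fin D → Bool))) = ⊤ := by
    rw [← direction_affineSpan, h, AffineSubspace.direction_top]
  rw [Finset.coe_image, h2, finrank_top, Module.finrank_fin_fun] at h1
  omega

/-- Module LEB. -/
theorem pf_LEB : T_LEB := by
  classical
  intro d hcov
  obtain ⟨φ⟩ : Nonempty ((Fin (d + 1) → Bool) ≃ Fin (Fintype.card (Fin (d + 1) → Bool))) :=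
    ⟨Fintype.equivFin _⟩
  obtain ⟨V0, hVo0, hVU0, hVc0, hVn0⟩ := hcov (Fintype.card (Fin (d + 1) → Bool))
    (fun i => {x | ∀ j, (φ.symm i j = false → x.1 j < 1) ∧ (φ.symm i j = true → 0 < x.1 j)})
    (by
      intro i
      rw [Set.ofPred_forall]
      apply isOpen_iInter_of_finite
      intro j
      have hc : Continuous fun x : Icc (0 : Fin (d + 1) → ℝ) 1 => x.1 j :=
        (continuous_apply j).comp continuous_subtype_val
      cases hb : φ.symm i j with
      | false =>
        have e : {x : Icc (0 : Fin (d + 1) → ℝ) 1 |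
            (false = false → x.1 j < 1) ∧ (false = true → 0 < x.1 j)} = {x | x.1 j < 1} := by
          ext x
          simp
        rw [e]
        exact isOpen_lt hc continuous_const
      | true =>
        have e : {x : Icc (0 : Fin (d + 1) → ℝ) 1 |
            (true = false → x.1 j < 1) ∧ (true = true → 0 < x.1 j)} = {x | 0 < x.1 j} := by
          ext x
          simp
        rw [e]
        exact isOpen_lt continuous_const hc)
    (by
      intro x
      refine ⟨φ fun j => decide (0 < x.1 j), ?_⟩
      intro j
      rw [Equiv.symm_apply_apply]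
      constructor
      · intro h
        have h1 : ¬ 0 < x.1 j := by simpa using h
        linarith
      · intro h
        simpa using h)
  -- the sets indexed by the vertices
  obtain ⟨V, hVdef⟩ : ∃ V : (Fin (d + 1) → Bool) → Set (Icc (0 : Fin (d + 1) → ℝ) 1),
    V = fun s => V0 (φ s) := ⟨_, rfl⟩
  have hVo : ∀ s, IsOpen (V s) := fun s => by rw [hVdef]; exact hVo0 _
  have hVU : ∀ s, ∀ x ∈ V s, ∀ j, (s j = false → x.1 j < 1) ∧ (s j = true → 0 < x.1 j) := by
    intro s x hx
    rw [hVdef] at hx
    have := hVU0 _ hx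
    intro j
    have h1 := this j
    rw [Equiv.symm_apply_apply] at h1
    exact h1
  have hVc : ∀ x, ∃ s, x ∈ V s := by
    intro x
    obtain ⟨i, hi⟩ := hVc0 x
    refine ⟨φ.symm i, ?_⟩
    rw [hVdef]
    show x ∈ V0 (φ (φ.symm i))
    rw [Equiv.apply_symm_apply]
    exact hi
  have hVn : ∀ x, (Finset.univ.filter fun s => x ∈ V s).card ≤ d + 1 := by
    intro x
    refine le_trans ?_ (hVn0 x)
    rw [← Set.ncard_coe_finset]
    have hinj : InjOn φ ((Finset.univ.filter fun s => x ∈ V s : Finset (Fin (d + 1) → Bool)) :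
        Set (Fin (d + 1) → Bool)) := φ.injective.injOn
    refine Set.ncard_le_ncard_of_injOn φ ?_ hinj (Set.toFinite _)
    intro s hs
    have hs' := Finset.mem_coe.1 hs
    rw [Finset.mem_filter, hVdef] at hs'
    exact hs'.2
  -- the weights
  obtain ⟨w, hw⟩ : ∃ w : (Fin (d + 1) → Bool) → Icc (0 : Fin (d + 1) → ℝ) 1 → ℝ,
      w = fun s x => Metric.infDist x (V s)ᶜ + if V s = univ then 1 else 0 := ⟨_, rfl⟩
  have hwc : ∀ s, Continuous (w s) := by
    intro s
    rw [hw]
    exact (Metric.continuous_infDist_pt _).add continuous_const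
  have hw0 : ∀ s x, 0 ≤ w s x := by
    intro s x
    rw [hw]
    have h1 : (0 : ℝ) ≤ if V s = univ then 1 else 0 := by split_ifs <;> norm_num
    exact add_nonneg Metric.infDist_nonneg h1
  have hwp : ∀ s x, x ∈ V s → 0 < w s x := by
    intro s x hx
    rw [hw]
    by_cases hu : V s = univ
    · have h1 : (0 : ℝ) ≤ Metric.infDist x (V s)ᶜ := Metric.infDist_nonneg
      show 0 < Metric.infDist x (V s)ᶜ + if V s = univ then 1 else 0
      rw [if_pos hu]
      linarith
    · have hne : ((V s)ᶜ).Nonempty := by
        rw [Set.nonempty_compl]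
        exact hu
      have h1 : 0 < Metric.infDist x (V s)ᶜ :=
        ((hVo s).isClosed_compl.notMem_iff_infDist_pos hne).1 (fun h => h hx)
      show 0 < Metric.infDist x (V s)ᶜ + if V s = univ then 1 else 0
      rw [if_neg hu]
      linarith
  have hwz : ∀ s x, x ∉ V s → w s x = 0 := by
    intro s x hx
    rw [hw]
    show Metric.infDist x (V s)ᶜ + (if V s = univ then 1 else 0) = 0
    rw [if_neg (fun h : V s = univ => hx (by rw [h]; exact mem_univ x)),
      Metric.infDist_zero_of_mem (show x ∈ (V s)ᶜ from hx)]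
    norm_num
  have hWp : ∀ x, 0 < ∑ s, w s x := by
    intro x
    obtain ⟨s, hs⟩ := hVc x
    exact Finset.sum_pos' (fun s _ => hw0 s x) ⟨s, Finset.mem_univ s, hwp s x hs⟩
  -- the map
  obtain ⟨f, hf⟩ : ∃ f : Icc (0 : Fin (d + 1) → ℝ) 1 → Fin (d + 1) → ℝ,
      f = fun x j => (∑ s, w s x * vtx s j) / ∑ s, w s x := ⟨_, rfl⟩
  have hfc : Continuous f := by
    rw [hf]
    apply continuous_pi
    intro j
    apply Continuous.div
    · exact continuous_finsetSum _ fun s _ => (hwc s).mul continuous_const
    · exact continuous_finsetSum _ fun s _ => hwc s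
    · intro x
      exact (hWp x).ne'
  have hf0 : ∀ x j, x.1 j = 0 → f x j = 0 := by
    intro x j hx
    rw [hf]
    show (∑ s, w s x * vtx s j) / ∑ s, w s x = 0
    have : ∑ s, w s x * vtx s j = 0 := by
      apply Finset.sum_eq_zero
      intro s _
      by_cases hs : s j = true
      · rw [hwz s x (fun h => by
          have := (hVU s x h j).2 hs
          linarith)]
        ring
      · unfold vtx
        rw [if_neg hs, mul_zero]
    rw [this, zero_div]
  have hf1 : ∀ x j, x.1 j = 1 → f x j = 1 := by
    intro x j hx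
    rw [hf]
    show (∑ s, w s x * vtx s j) / ∑ s, w s x = 1
    have : ∑ s, w s x * vtx s j = ∑ s, w s x := by
      apply Finset.sum_congr rfl
      intro s _
      by_cases hs : s j = true
      · unfold vtx
        rw [if_pos hs, mul_one]
      · rw [hwz s x (fun h => by
          have := (hVU s x h j).1 (by simpa using hs)
          linarith)]
        ring
    rw [this, div_self (hWp x).ne']
  -- the clamp
  obtain ⟨cl, hcl⟩ : ∃ cl : (Fin (d + 1) → ℝ) → Icc (0 : Fin (d + 1) → ℝ) 1,
      cl = fun x => ⟨fun j => max 0 (min 1 (x j)), by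
        constructor
        · intro j
          exact le_max_left _ _
        · intro j
          exact max_le zero_le_one (min_le_left _ _)⟩ := ⟨_, rfl⟩
  have hclc : Continuous cl := by
    rw [hcl]
    apply Continuous.subtype_mk
    apply continuous_pi
    intro j
    exact continuous_const.max (continuous_const.min (continuous_apply j))
  have hcle : ∀ x ∈ Icc (0 : Fin (d + 1) → ℝ) 1, ∀ j, (cl x).1 j = x j := by
    intro x hx j
    rw [hcl]
    show max 0 (min 1 (x j)) = x j
    have h2 : x j ≤ 1 := hx.2 j
    have h0 : 0 ≤ x j := hx.1 j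
    rw [min_eq_right h2, max_eq_right h0]
  -- surjectivity
  have hsurj : ∀ p ∈ Icc (0 : Fin (d + 1) → ℝ) 1, ∃ x, f x = p := by
    intro p hp
    obtain ⟨x, hx, hx0⟩ := Pool.Agent.H58.Kuhn.poincare_miranda (fun x => f (cl x) - p)
      ((hfc.comp hclc).sub continuous_const).continuousOn
      (by
        intro x hx j hxj
        have h1 : f (cl x) j = 0 := hf0 _ _ (by rw [hcle x hx j]; exact hxj)
        show f (cl x) j - p j ≤ 0
        rw [h1]
        have := hp.1 j
        have h2 : (0 : ℝ) ≤ p j := this
        linarith)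
      (by
        intro x hx j hxj
        have h1 : f (cl x) j = 1 := hf1 _ _ (by rw [hcle x hx j]; exact hxj)
        show 0 ≤ f (cl x) j - p j
        rw [h1]
        have h2 : p j ≤ 1 := hp.2 j
        linarith)
    exact ⟨cl x, sub_eq_zero.1 hx0⟩
  -- the cube is covered by proper affine subspaces
  have hsub : Icc (0 : Fin (d + 1) → ℝ) 1 ⊆
      ⋃ T ∈ ((Finset.univ.filter fun T : Finset (Fin (d + 1) → Bool) =>
        T.Nonempty ∧ T.card ≤ d + 1 : Finset (Finset (Fin (d + 1) → Bool))) :
          Set (Finset (Fin (d + 1) → Bool))), (affineSpan ℝ (vtx '' (T : Set (Fin (d + 1) → Bool))) :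
          Set (Fin (d + 1) → ℝ)) := by
    intro p hp
    obtain ⟨x, hx⟩ := hsurj p hp
    obtain ⟨T, hT⟩ : ∃ T : Finset (Fin (d + 1) → Bool),
      T = Finset.univ.filter fun s => x ∈ V s := ⟨_, rfl⟩
    rw [Set.mem_iUnion₂]
    refine ⟨T, ?_, ?_⟩
    · rw [Finset.mem_coe, Finset.mem_filter]
      refine ⟨Finset.mem_univ _, ?_, ?_⟩
      · obtain ⟨s, hs⟩ := hVc x
        exact ⟨s, by rw [hT, Finset.mem_filter]; exact ⟨Finset.mem_univ _, hs⟩⟩
      · rw [hT]
        exact hVn x
    · have hsum : ∑ s, w s x / ∑ s, w s x = 1 := by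
        rw [← Finset.sum_div, div_self (hWp x).ne']
      have hcomb : Finset.univ.affineCombination ℝ (vtx (D := d + 1))
          (fun s => w s x / ∑ s, w s x) = p := by
        rw [Finset.affineCombination_eq_linear_combination _ _ _ hsum, ← hx, hf]
        funext j
        rw [Finset.sum_apply]
        show _ = (∑ s, w s x * vtx s j) / ∑ s, w s x
        rw [Finset.sum_div]
        apply Finset.sum_congr rfl
        intro s _
        rw [Pi.smul_apply, smul_eq_mul]
        ring
      rw [← hcomb]
      apply affineCombination_mem_affineSpan_image hsum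
      intro s _ hs
      have : x ∉ V s := by
        intro h
        apply hs
        rw [hT]
        simp [h]
      rw [hwz s x this, zero_div]
  have hzero : volume (Icc (0 : Fin (d + 1) → ℝ) 1) = 0 := by
    refine measure_mono_null hsub ?_
    rw [measure_biUnion_null_iff (Finset.countable_toSet _)]
    intro T hT
    have hT' := Finset.mem_coe.1 hT
    rw [Finset.mem_filter] at hT'
    exact Measure.addHaar_affineSubspace volume _ (span_ne_top T hT'.2.1 hT'.2.2)
  rw [Real.volume_Icc_pi] at hzero
  simp at hzero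

end Pool.Agent.H48.GY.LEB
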